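import Pool.Agent.Helper43.GH.Defs2

/-!
Project GH, block GH-P5: pairs of blocks the first of which has size two.
-/

set_option linter.unusedSectionVars false

open Matrix Module

namespace GH

open MH

variable {m : Type*} [Fintype m] [DecidableEq m] {k : Type*} [Fintype k] [DecidableEq k]
  {P : Submodule ℂ (Matrix m m ℂ × Matrix k k ℂ)}

private lemma sq67 (hk : Fintype.card k = 2) {a : Matrix k k ℂ} (h1 : a.trace = 0)
    (h2 : (a * a).trace = 0) : a * a = 0 := by
  have h3 := Matrix.aeval_self_charpoly a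
  rw [Matrix.charpoly_of_card_eq_two a hk, h1] at h3
  simp only [map_zero, zero_mul, sub_zero, map_add, map_pow, Polynomial.aeval_X, Polynomial.aeval_C] at h3
  rw [Algebra.algebraMap_eq_smul_one] at h3
  have h4 : a * a = (-a.det) • (1 : Matrix k k ℂ) := by
    rw [neg_smul, ← pow_two]
    exact eq_neg_of_add_eq_zero_left h3
  rw [h4, trace_smul, trace_one, hk] at h2
  have h5 : a.det = 0 := by
    simpa using h2
  rw [h4, h5]
  simp

private lemma gra67 (g : Gra P) {x : Matrix m m ℂ} {y y' : Matrix k k ℂ} (h1 : (x, y) ∈ P)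
    (h2 : (x, y') ∈ P) : ∃ s : ℂ, y = y' + s • (1 : Matrix k k ℂ) := by
  have h3 : ((0 : Matrix m m ℂ), y - y') ∈ P := by
    have := P.sub_mem h1 h2
    rwa [Prod.mk_sub_mk, sub_self] at this
  obtain ⟨s, hs⟩ := (g _ h3).1 ⟨0, by simp⟩
  refine ⟨s, ?_⟩
  have hs' : y - y' = s • (1 : Matrix k k ℂ) := hs
  rw [← hs']
  abel

/-- five linearly independent elements do not fit into the span of four -/
private lemma five67 {a b c d : Matrix k k ℂ} {V : Submodule ℂ (Matrix k k ℂ)}
    (hV : ∀ y ∈ V, ∃ α β γ δ : ℂ, y = α • a + β • b + γ • c + δ • d)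
    (f : (Fin 5 → ℂ) →ₗ[ℂ] Matrix k k ℂ) (hf : ∀ t, f t ∈ V) (hi : ∀ t, f t = 0 → t = 0) : False := by
  have h1 : ∀ t, f t ∈ Submodule.span ℂ (Set.range ![a, b, c, d]) := by
    intro t
    obtain ⟨α, β, γ, δ, h⟩ := hV _ (hf t)
    have e : ∀ i : Fin 4, (![a, b, c, d] : Fin 4 → Matrix k k ℂ) i ∈ Submodule.span ℂ (Set.range ![a, b, c, d]) :=
      fun i => Submodule.subset_span ⟨i, rfl⟩
    rw [h]
    exact add_mem (add_mem (add_mem (Submodule.smul_mem _ _ (e 0)) (Submodule.smul_mem _ _ (e 1)))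
      (Submodule.smul_mem _ _ (e 2))) (Submodule.smul_mem _ _ (e 3))
  have h2 : Function.Injective (f.codRestrict _ h1) := by
    rw [← LinearMap.ker_eq_bot, LinearMap.ker_eq_bot']
    intro t ht
    exact hi t (congrArg Subtype.val ht)
  have h3 := LinearMap.finrank_le_finrank_of_injective h2
  have h4 : finrank ℂ (Submodule.span ℂ (Set.range ![a, b, c, d])) ≤ 4 := by
    have := finrank_range_le_card (R := ℂ) (b := ![a, b, c, d])
    simpa [Set.finrank] using this
  rw [finrank_fin_fun] at h3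
  omega

private lemma large67 {a b c d : Matrix k k ℂ} {V : Submodule ℂ (Matrix k k ℂ)}
    (hV : ∀ y ∈ V, ∃ α β γ δ : ℂ, y = α • a + β • b + γ • c + δ • d) (h : TyF V) : Fintype.card k ≤ 2 := by
  by_contra hk
  rw [not_le] at hk
  have hsl : ¬ ∀ x : Matrix k k ℂ, x.trace = 0 → x ∈ V := by
    intro hall
    obtain ⟨p, q, r, hpq, hpr, hqr⟩ := Fintype.two_lt_card_iff.mp hk
    let f : (Fin 5 → ℂ) →ₗ[ℂ] Matrix k k ℂ :=
      { toFun := fun t => t 0 • single p q (1 : ℂ) + t 1 • single p r (1 : ℂ) + t 2 • single q p (1 : ℂ) +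
          t 3 • single q r (1 : ℂ) + t 4 • single r p (1 : ℂ)
        map_add' := by intro s t; simp only [Pi.add_apply, add_smul]; abel
        map_smul' := by intro s t; simp only [Pi.smul_apply, smul_eq_mul, mul_smul, smul_add, RingHom.id_apply] }
    refine five67 hV f (fun t => hall _ ?_) (fun t ht => ?_)
    · change (t 0 • single p q (1 : ℂ) + t 1 • single p r (1 : ℂ) + t 2 • single q p (1 : ℂ) +
          t 3 • single q r (1 : ℂ) + t 4 • single r p (1 : ℂ)).trace = 0
      simp [hpq, hpr, hqr, hpq.symm, hpr.symm]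
    · change t 0 • single p q (1 : ℂ) + t 1 • single p r (1 : ℂ) + t 2 • single q p (1 : ℂ) +
          t 3 • single q r (1 : ℂ) + t 4 • single r p (1 : ℂ) = 0 at ht
      have e0 := congrFun (congrFun ht p) q
      have e1 := congrFun (congrFun ht p) r
      have e2 := congrFun (congrFun ht q) p
      have e3 := congrFun (congrFun ht q) r
      have e4 := congrFun (congrFun ht r) p
      simp [single_apply, hpq, hpr, hqr, hpq.symm, hpr.symm, hqr.symm] at e0 e1 e2 e3 e4
      funext l
      fin_cases l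
      · exact e0
      · exact e1
      · exact e2
      · exact e3
      · exact e4
  have h5 : 5 ≤ Fintype.card k := h.2.resolve_left hsl
  obtain ⟨Q, hQ, hQu, hQV, -⟩ := h.1.resolve_left hsl
  obtain ⟨ε, hε, hQε⟩ : ∃ ε : ℂ, ε * ε = 1 ∧ Qᵀ = ε • Q := by
    rcases hQ with h6 | h6
    · exact ⟨1, by norm_num, by rw [h6, one_smul]⟩
    · exact ⟨-1, by norm_num, by rw [h6, neg_one_smul]⟩
  obtain ⟨R, hR, hR'⟩ := isUnit_iff_exists.mp hQu
  obtain ⟨u⟩ : Nonempty (Fin 4 ↪ k) := Function.Embedding.nonempty_of_card_le (by simp; omega)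
  have hu : ∀ i j : Fin 4, (u i = u j) = (i = j) := fun i j => by simp
  -- the symmetric or antisymmetric matrices
  let s : Fin 4 → Fin 4 → Matrix k k ℂ := fun i j => single (u i) (u j) 1 - ε • single (u j) (u i) 1
  have hs : ∀ i j, (s i j)ᵀ = -ε • s i j := by
    intro i j
    simp only [s, transpose_sub, transpose_smul, transpose_single, smul_sub, smul_smul, neg_mul, hε, neg_smul,
      one_smul]
    abel
  let S : (Fin 5 → ℂ) →ₗ[ℂ] Matrix k k ℂ :=
    { toFun := fun t => t 0 • s 0 1 + t 1 • s 0 2 + t 2 • s 0 3 + t 3 • s 1 2 + t 4 • s 1 3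
      map_add' := by intro s t; simp only [Pi.add_apply, add_smul]; abel
      map_smul' := by intro s t; simp only [Pi.smul_apply, smul_eq_mul, mul_smul, smul_add, RingHom.id_apply] }
  have hS : ∀ t, S t = t 0 • s 0 1 + t 1 • s 0 2 + t 2 • s 0 3 + t 3 • s 1 2 + t 4 • s 1 3 := fun t => rfl
  have hST : ∀ t, (S t)ᵀ = -ε • S t := by
    intro t
    rw [hS]
    simp only [transpose_add, transpose_smul, hs, smul_add]
    rw [smul_comm (t 0), smul_comm (t 1), smul_comm (t 2), smul_comm (t 3), smul_comm (t 4)]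
  refine five67 hV ((LinearMap.mulLeft ℂ R).comp S) (fun t => hQV _ ?_) (fun t ht => ?_)
  · change (R * S t)ᵀ * Q + Q * (R * S t) = 0
    have e1 : Rᵀ * Q = ε • (1 : Matrix k k ℂ) := by
      have e2 : Rᵀ * Qᵀ = 1 := by rw [← transpose_mul, hR, transpose_one]
      rw [hQε, mul_smul_comm] at e2
      rw [← e2, smul_smul, hε, one_smul]
    rw [transpose_mul, mul_assoc, e1, hST, ← mul_assoc, hR, one_mul, mul_smul_comm, mul_one, smul_smul]
    rw [mul_neg, hε, neg_one_smul, neg_add_cancel]
  · change R * S t = 0 at ht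
    have e0 : S t = 0 := by
      rw [← one_mul (S t), ← hR, mul_assoc, ht, mul_zero]
    rw [hS] at e0
    have f0 := congrFun (congrFun e0 (u 0)) (u 1)
    have f1 := congrFun (congrFun e0 (u 0)) (u 2)
    have f2 := congrFun (congrFun e0 (u 0)) (u 3)
    have f3 := congrFun (congrFun e0 (u 1)) (u 2)
    have f4 := congrFun (congrFun e0 (u 1)) (u 3)
    simp [s, single_apply] at f0 f1 f2 f3 f4
    funext l
    fin_cases l
    · exact f0
    · exact f1
    · exact f2
    · exact f3
    · exact f4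

/-- P5: blocks of size two -/
theorem pair_two (br : ∀ p ∈ P, ∀ q ∈ P, p * q - q * p ∈ P) (g : Gra P) (hm : Fintype.card m = 2)
    (h1 : ∀ x : Matrix m m ℂ, ∃ y, (x, y) ∈ P) (h2 : TyF (P.map (LinearMap.snd ℂ _ _))) : LinkT P := by
  classical
  obtain ⟨i, j, hij, hu⟩ := Finset.card_eq_two.mp (show (Finset.univ : Finset m).card = 2 by rw [Finset.card_univ, hm])
  have hall : ∀ s : m, s = i ∨ s = j := by
    intro s
    have := Finset.mem_univ s
    rw [hu] at this
    simpa using this
  set e : Matrix m m ℂ := single i j 1 with he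
  set f : Matrix m m ℂ := single j i 1 with hf
  set H : Matrix m m ℂ := e * f - f * e with hH
  have hHv : H = single i i 1 - single j j 1 := by
    rw [hH, he, hf, single_mul_single_same, single_mul_single_same]
    simp
  have hHe : H * e - e * H = (2 : ℂ) • e := by
    rw [hHv, he, sub_mul, mul_sub, single_mul_single_same, single_mul_single_same,
      single_mul_single_of_ne _ _ _ _ hij.symm, single_mul_single_of_ne _ _ _ _ hij.symm]
    rw [two_smul]
    simp
  have hHf : H * f - f * H = (-2 : ℂ) • f := by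
    rw [hHv, hf, sub_mul, mul_sub, single_mul_single_same, single_mul_single_same,
      single_mul_single_of_ne _ _ _ _ hij, single_mul_single_of_ne _ _ _ _ hij, neg_smul, two_smul]
    simp
    abel
  have hx : ∀ x : Matrix m m ℂ, x = x i j • e + x j i • f + ((x i i - x j j) / 2) • H +
      ((x i i + x j j) / 2) • (1 : Matrix m m ℂ) := by
    intro x
    rw [hHv]
    ext s t
    rcases hall s with rfl | rfl <;> rcases hall t with rfl | rfl
    · simp [he, hf, single_apply, hij, hij.symm]; ring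
    · simp [he, hf, single_apply, hij, hij.symm]
    · simp [he, hf, single_apply, hij, hij.symm]
    · simp [he, hf, single_apply, hij, hij.symm]; ring
  have hpair : ∀ {x x' : Matrix m m ℂ} {y y' : Matrix k k ℂ}, (x, y) ∈ P → (x', y') ∈ P →
      (x * x' - x' * x, y * y' - y' * y) ∈ P := fun h h' => br _ h _ h'
  obtain ⟨a0, ha0⟩ := h1 e
  obtain ⟨b0, hb0⟩ := h1 f
  set c : Matrix k k ℂ := a0 * b0 - b0 * a0 with hc
  have hcP : (H, c) ∈ P := hpair ha0 hb0
  obtain ⟨s, hs⟩ := gra67 g (show ((2 : ℂ) • e, c * a0 - a0 * c) ∈ P by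
    rw [← hHe]; exact hpair hcP ha0) (show ((2 : ℂ) • e, (2 : ℂ) • a0) ∈ P from P.smul_mem 2 ha0)
  obtain ⟨r, hr⟩ := gra67 g (show ((-2 : ℂ) • f, c * b0 - b0 * c) ∈ P by
    rw [← hHf]; exact hpair hcP hb0) (show ((-2 : ℂ) • f, (-2 : ℂ) • b0) ∈ P from P.smul_mem (-2) hb0)
  have hsP : ((0 : Matrix m m ℂ), s • (1 : Matrix k k ℂ)) ∈ P := by
    have e1 := P.sub_mem (show ((2 : ℂ) • e, c * a0 - a0 * c) ∈ P by rw [← hHe]; exact hpair hcP ha0)
      (show ((2 : ℂ) • e, (2 : ℂ) • a0) ∈ P from P.smul_mem 2 ha0)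
    rwa [Prod.mk_sub_mk, sub_self, hs, add_sub_cancel_left] at e1
  have hrP : ((0 : Matrix m m ℂ), r • (1 : Matrix k k ℂ)) ∈ P := by
    have e1 := P.sub_mem (show ((-2 : ℂ) • f, c * b0 - b0 * c) ∈ P by rw [← hHf]; exact hpair hcP hb0)
      (show ((-2 : ℂ) • f, (-2 : ℂ) • b0) ∈ P from P.smul_mem (-2) hb0)
    rwa [Prod.mk_sub_mk, sub_self, hr, add_sub_cancel_left] at e1
  set a : Matrix k k ℂ := a0 + (s / 2) • (1 : Matrix k k ℂ) with ha
  set b : Matrix k k ℂ := b0 + (-(r / 2)) • (1 : Matrix k k ℂ) with hb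
  have haP : (e, a) ∈ P := by
    have e1 := P.add_mem ha0 (P.smul_mem (1 / 2) hsP)
    rw [Prod.smul_mk, smul_zero, smul_smul, Prod.mk_add_mk, add_zero] at e1
    rw [ha]
    convert e1 using 4
    ring
  have hbP : (f, b) ∈ P := by
    have e1 := P.add_mem hb0 (P.smul_mem (-(1 / 2)) hrP)
    rw [Prod.smul_mk, smul_zero, smul_smul, Prod.mk_add_mk, add_zero] at e1
    rw [hb]
    convert e1 using 4
    ring
  have hab : a * b - b * a = c := by
    rw [ha, hb, hc]
    simp only [add_mul, mul_add, smul_mul_assoc, mul_smul_comm, one_mul, mul_one, smul_smul]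
    module
  have hca : c * a - a * c = (2 : ℂ) • a := by
    rw [ha]
    simp only [add_mul, mul_add, smul_mul_assoc, mul_smul_comm, one_mul, mul_one, smul_add, smul_smul]
    have e1 : c * a0 + (s / 2) • c - (a0 * c + (s / 2) • c) = c * a0 - a0 * c := by abel
    rw [e1, hs]
    congr 2
    ring
  have hcb : c * b - b * c = (-2 : ℂ) • b := by
    rw [hb]
    simp only [add_mul, mul_add, smul_mul_assoc, mul_smul_comm, one_mul, mul_one, smul_add, smul_smul]
    have e1 : c * b0 + (-(r / 2)) • c - (b0 * c + (-(r / 2)) • c) = c * b0 - b0 * c := by abel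
    rw [e1, hr]
    congr 2
    ring
  clear_value a b c
  -- the general element
  have hdec : ∀ p ∈ P, ∃ α β γ δ ζ : ℂ, p.1 = α • e + β • f + γ • H + δ • (1 : Matrix m m ℂ) ∧
      p.2 = α • a + β • b + γ • c + ζ • (1 : Matrix k k ℂ) := by
    intro p hp
    have e1 := P.sub_mem hp (P.add_mem (P.add_mem (P.smul_mem (p.1 i j) haP) (P.smul_mem (p.1 j i) hbP))
      (P.smul_mem ((p.1 i i - p.1 j j) / 2) hcP))
    obtain ⟨ζ, hζ⟩ := (g _ e1).1 ⟨(p.1 i i + p.1 j j) / 2, by
      change p.1 - (p.1 i j • e + p.1 j i • f + ((p.1 i i - p.1 j j) / 2) • H) = _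
      rw [sub_eq_iff_eq_add', ← hx]⟩
    refine ⟨p.1 i j, p.1 j i, (p.1 i i - p.1 j j) / 2, (p.1 i i + p.1 j j) / 2, ζ, hx p.1, ?_⟩
    change p.2 - (p.1 i j • a + p.1 j i • b + ((p.1 i i - p.1 j j) / 2) • c) = _ at hζ
    rw [sub_eq_iff_eq_add'] at hζ
    exact hζ
  -- `e` is not a scalar
  have hens : ¬ ∃ t : ℂ, e = t • (1 : Matrix m m ℂ) := by
    rintro ⟨t, ht⟩
    have e1 := congrFun (congrFun ht i) j
    simp [he, hij] at e1
  have hans : ¬ ∃ t : ℂ, a = t • (1 : Matrix k k ℂ) := fun h => hens ((g _ haP).2 h)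
  have hk2 : Fintype.card k = 2 := by
    have h3 : Fintype.card k ≤ 2 := by
      refine large67 (a := a) (b := b) (c := c) (d := 1) (V := P.map (LinearMap.snd ℂ _ _)) ?_ h2
      intro y hy
      obtain ⟨p, hp, rfl⟩ := Submodule.mem_map.mp hy
      obtain ⟨α, β, γ, δ, ζ, -, h4⟩ := hdec p hp
      exact ⟨α, β, γ, ζ, h4⟩
    have h4 : ¬ Fintype.card k ≤ 1 := by
      intro h5
      have := Fintype.card_le_one_iff_subsingleton.mp h5
      apply hans
      by_cases hne : Nonempty k
      · obtain ⟨u⟩ := hne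
        refine ⟨a u u, ?_⟩
        ext x y
        rw [Subsingleton.elim x u, Subsingleton.elim y u]
        simp
      · refine ⟨0, ?_⟩
        ext x y
        exact absurd ⟨x⟩ hne
    omega
  have ha0' : a ≠ 0 := fun h => hans ⟨0, by rw [h, zero_smul]⟩
  have tra : a.trace = 0 := by
    have e1 := congrArg Matrix.trace hca
    rw [trace_sub, trace_mul_comm, sub_self, trace_smul, smul_eq_mul] at e1
    have e2 := (mul_eq_zero.mp e1.symm).resolve_left two_ne_zero
    exact e2
  have traa : (a * a).trace = 0 := by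
    have e1 := congrArg (fun X => (X * a).trace) hca
    simp only [sub_mul, trace_sub, smul_mul_assoc, trace_smul, smul_eq_mul] at e1
    have e3 : (c * a * a).trace = (a * c * a).trace := by
      rw [mul_assoc a c a, trace_mul_comm a (c * a)]
    rw [e3, sub_self] at e1
    exact (mul_eq_zero.mp e1.symm).resolve_left two_ne_zero
  have trb : b.trace = 0 := by
    have e1 := congrArg Matrix.trace hcb
    rw [trace_sub, trace_mul_comm, sub_self, trace_smul, smul_eq_mul] at e1
    exact (mul_eq_zero.mp e1.symm).resolve_left (neg_ne_zero.mpr two_ne_zero)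
  have trbb : (b * b).trace = 0 := by
    have e1 := congrArg (fun X => (X * b).trace) hcb
    simp only [sub_mul, trace_sub, smul_mul_assoc, trace_smul, smul_eq_mul] at e1
    have e3 : (c * b * b).trace = (b * c * b).trace := by
      rw [mul_assoc b c b, trace_mul_comm b (c * b)]
    rw [e3, sub_self] at e1
    exact (mul_eq_zero.mp e1.symm).resolve_left (neg_ne_zero.mpr two_ne_zero)
  have haa := sq67 hk2 tra traa
  have hbb := sq67 hk2 trb trbb
  have hca' : c * a = a * b * a := by
    rw [← hab, sub_mul, mul_assoc b a a, haa, mul_zero, sub_zero]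
  have hac' : a * c = -(a * b * a) := by
    rw [← hab, mul_sub, ← mul_assoc a a b, haa, zero_mul, zero_sub, mul_assoc]
  have haba : a * b * a = a := by
    rw [hca', hac', sub_neg_eq_add, ← two_smul ℂ] at hca
    exact smul_right_injective _ (two_ne_zero : (2 : ℂ) ≠ 0) hca
  obtain ⟨z, hz⟩ : ∃ z, a *ᵥ z ≠ 0 := by
    by_contra hcon
    push Not at hcon
    apply ha0'
    apply Matrix.toLin'.injective
    apply LinearMap.ext
    intro u
    rw [Matrix.toLin'_apply, hcon, map_zero, LinearMap.zero_apply]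
  set w := a *ᵥ z with hw
  have haw : a *ᵥ w = 0 := by rw [hw, mulVec_mulVec, haa, zero_mulVec]
  have habw : a *ᵥ (b *ᵥ w) = w := by rw [hw, mulVec_mulVec, mulVec_mulVec, haba]
  have hbbw : b *ᵥ (b *ᵥ w) = 0 := by rw [mulVec_mulVec, hbb, zero_mulVec]
  set T : Matrix k m ℂ := vecMulVec w (Pi.single i 1) + vecMulVec (b *ᵥ w) (Pi.single j 1) with hT
  have r1 : Pi.single i 1 ᵥ* e = Pi.single j 1 := by
    rw [single_one_vecMul]
    ext s
    simp [he, Matrix.row, Pi.single_apply, single_apply, eq_comm]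
  have r2 : Pi.single j 1 ᵥ* e = 0 := by
    rw [single_one_vecMul]
    ext s
    simp [he, Matrix.row, single_apply, hij]
  have r3 : Pi.single i 1 ᵥ* f = 0 := by
    rw [single_one_vecMul]
    ext s
    simp [hf, Matrix.row, single_apply, hij.symm]
  have r4 : Pi.single j 1 ᵥ* f = Pi.single i 1 := by
    rw [single_one_vecMul]
    ext s
    simp [hf, Matrix.row, Pi.single_apply, single_apply, eq_comm]
  have hzero : ∀ x : m → ℂ, vecMulVec (0 : k → ℂ) x = 0 := by
    intro x; ext s t; simp [vecMulVec_apply]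
  have hzero' : ∀ x : k → ℂ, vecMulVec x (0 : m → ℂ) = 0 := by
    intro x; ext s t; simp [vecMulVec_apply]
  have haT : a * T = T * e := by
    rw [hT, Matrix.mul_add, Matrix.add_mul, mul_vecMulVec, mul_vecMulVec, vecMulVec_mul, vecMulVec_mul, haw, habw, r1, r2,
      hzero, hzero', zero_add, add_zero]
  have hbT : b * T = T * f := by
    rw [hT, Matrix.mul_add, Matrix.add_mul, mul_vecMulVec, mul_vecMulVec, vecMulVec_mul, vecMulVec_mul, hbbw, r3, r4,
      hzero, hzero', zero_add, add_zero]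
  have hcT : c * T = T * H := by
    rw [← hab, hH, Matrix.sub_mul, Matrix.mul_sub, Matrix.mul_assoc, Matrix.mul_assoc, hbT, haT, ← Matrix.mul_assoc,
      ← Matrix.mul_assoc, haT, hbT, Matrix.mul_assoc, Matrix.mul_assoc]
  refine ⟨T, ?_, ?_⟩
  · intro h0
    apply hz
    ext s
    have e1 := congrFun (congrFun h0 s) i
    simpa [hT, vecMulVec_apply, Pi.single_apply, hij] using e1
  · intro p hp
    obtain ⟨α, β, γ, δ, ζ, h3, h4⟩ := hdec p hp
    refine ⟨ζ - δ, ?_⟩
    rw [h3, h4]
    simp only [Matrix.add_mul, Matrix.mul_add, Matrix.smul_mul, Matrix.mul_smul, haT, hbT, hcT, Matrix.one_mul,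
      Matrix.mul_one]
    module

end GH
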