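import Pool.Agent.Helper43.GH.Bas
import Pool.Agent.Helper98.MH.Onb

/-!
Project GH, block GH-M4: an operator on the kernel of `h` that commutes with the products of elements of opposite
nonzero degrees extends to an operator that commutes with the elements of nonzero degree.
-/

set_option linter.unusedSectionVars false

open Matrix Module

namespace GH

open MH

variable {n : Type*} [Fintype n] [DecidableEq n] {L : Submodule ℂ (Matrix n n ℂ)} {h : Matrix n n ℂ}
  {E : ℝ → Matrix n n ℂ} {Λ : Finset ℝ}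

/-- the span of the elements of nonzero degree -/
private def P67 (L : Submodule ℂ (Matrix n n ℂ)) (h : Matrix n n ℂ) : Submodule ℂ (Matrix n n ℂ) :=
  Submodule.span ℂ {x | ∃ ν : ℝ, ν ≠ 0 ∧ x ∈ Ld L h ν}

private lemma mem_P67 {ν : ℝ} (hν : ν ≠ 0) {x : Matrix n n ℂ} (hx : x ∈ Ld L h ν) : x ∈ P67 L h :=
  Submodule.subset_span ⟨ν, hν, hx⟩

private lemma star_P67 (G : Gr L h E Λ) {x : Matrix n n ℂ} (hx : x ∈ P67 L h) : xᴴ ∈ P67 L h := by
  induction hx using Submodule.span_induction with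
  | mem x hx =>
    obtain ⟨ν, hν, hx⟩ := hx
    exact mem_P67 (neg_ne_zero.mpr hν) (G.star_Ld hx)
  | zero => rw [conjTranspose_zero]; exact zero_mem _
  | add x y _ _ hx hy => rw [conjTranspose_add]; exact add_mem hx hy
  | smul c x _ hx => rw [conjTranspose_smul]; exact Submodule.smul_mem _ _ hx

private lemma EE_P67 (G : Gr L h E Λ) {x : Matrix n n ℂ} (hx : x ∈ P67 L h) : E 0 * x * E 0 = 0 := by
  induction hx using Submodule.span_induction with
  | mem x hx =>
    obtain ⟨ν, hν, hx⟩ := hx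
    exact G.EE hν hx
  | zero => simp
  | add x y _ _ hx hy => rw [mul_add, add_mul, hx, hy, add_zero]
  | smul c x _ hx => rw [mul_smul_comm, smul_mul_assoc, hx, smul_zero]

/-- a matrix is determined by its values on the kernel of `h` and on the images of the kernel -/
private lemma eq_of67 (G : Gr L h E Λ) (S0 : Sp0 L h E) {X Y : Matrix n n ℂ} (h0 : X * E 0 = Y * E 0)
    (hx : ∀ ν : ℝ, ν ≠ 0 → ∀ x ∈ Ld L h ν, X * x * E 0 = Y * x * E 0) : X = Y := by
  have h1 : (X - Y)ᴴ = 0 := by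
    apply Matrix.toLin'.injective
    apply LinearMap.ext
    intro v
    rw [Matrix.toLin'_apply, map_zero, LinearMap.zero_apply]
    apply S0
    · have e1 : E 0 * (X - Y)ᴴ = ((X - Y) * E 0)ᴴ := by rw [conjTranspose_mul, G.spec.star]
      rw [mulVec_mulVec, e1, sub_mul, h0, sub_self, conjTranspose_zero, zero_mulVec]
    · intro ν hν x hxν
      have e1 : E 0 * (x * (X - Y)ᴴ) = ((X - Y) * xᴴ * E 0)ᴴ := by
        rw [conjTranspose_mul, conjTranspose_mul, G.spec.star, conjTranspose_conjTranspose]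
      have h2 := hx (-ν) (neg_ne_zero.mpr hν) _ (G.star_Ld hxν)
      rw [mulVec_mulVec, mulVec_mulVec, mul_assoc, e1, sub_mul, sub_mul, h2, sub_self, conjTranspose_zero, zero_mulVec]
  exact sub_eq_zero.mp (conjTranspose_eq_zero.mp h1)

private lemma deg_mul67 {μ ν : ℝ} {x y : Matrix n n ℂ} (hx : x ∈ Ld L h μ) (hy : y ∈ Ld L h ν) :
    h * (x * y) - x * y * h = ((μ + ν : ℝ) : ℂ) • (x * y) := by
  have e1 : h * (x * y) - x * y * h = (h * x - x * h) * y + x * (h * y - y * h) := by noncomm_ring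
  rw [e1, hx.2, hy.2]
  push_cast
  simp only [smul_mul_assoc, mul_smul_comm]
  module

private lemma deg_ne67 (G : Gr L h E Λ) {ν : ℝ} (hν : ν ≠ 0) {z : Matrix n n ℂ} (hz : h * z - z * h = (ν : ℂ) • z) :
    E 0 * z * E 0 = 0 := by
  have h1 : E 0 * (h * z - z * h) * E 0 = 0 := by
    have e1 : E 0 * (h * z - z * h) * E 0 = (E 0 * h) * z * E 0 - E 0 * z * (h * E 0) := by noncomm_ring
    rw [e1, G.E0_h, G.h_E0]
    simp
  rw [hz, mul_smul_comm, smul_mul_assoc] at h1
  rcases smul_eq_zero.mp h1 with h2 | h2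
  · exact absurd (by exact_mod_cast h2) hν
  · exact h2

private lemma deg_zero67 (G : Gr L h E Λ) {z : Matrix n n ℂ} (hz : h * z - z * h = ((0 : ℝ) : ℂ) • z) :
    E 0 * z = z * E 0 := by
  have key : ∀ μ μ' : ℝ, μ ≠ μ' → E μ * z * E μ' = 0 := by
    intro μ μ' hne
    have h1 := G.spec.sandwich z μ μ'
    rw [hz, mul_smul_comm, smul_mul_assoc, Complex.ofReal_zero, zero_smul] at h1
    rcases smul_eq_zero.mp h1.symm with h2 | h2
    · exfalso
      apply hne
      have : μ - μ' = 0 := by exact_mod_cast h2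
      linarith
    · exact h2
  apply G.spec.ext
  intro μ μ'
  have e1 : E μ * (E 0 * z) * E μ' = (E μ * E 0) * z * E μ' := by noncomm_ring
  have e2 : E μ * (z * E 0) * E μ' = E μ * z * (E 0 * E μ') := by noncomm_ring
  rw [e1, e2, G.spec.mul, G.spec.mul]
  by_cases h1 : μ = 0
  · by_cases h2 : (0 : ℝ) = μ'
    · rw [if_pos h1, if_pos h2, h2, h1]
    · rw [if_pos h1, if_neg h2, mul_zero]
      exact key μ μ' (by rw [h1]; exact h2)
  · by_cases h2 : (0 : ℝ) = μ'
    · rw [if_neg h1, if_pos h2, zero_mul, zero_mul]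
      rw [key μ 0 h1]
    · rw [if_neg h1, if_neg h2, zero_mul, zero_mul, mul_zero]

theorem Gr.ext_uniq (G : Gr L h E Λ) (S0 : Sp0 L h E) {T T₁ T₂ : Matrix n n ℂ} (h1 : Ext L h E T T₁)
    (h2 : Ext L h E T T₂) : T₁ = T₂ := by
  refine eq_of67 G S0 (h1.1.trans h2.1.symm) fun ν hν x hx => ?_
  rw [h1.2.2.2 ν hν x hx, h2.2.2.2 ν hν x hx, mul_assoc, mul_assoc, h1.1, h2.1]

omit [DecidableEq n] in
private lemma dot67 (B : Matrix n n ℂ) (v : n → ℂ) :
    star v ⬝ᵥ ((Bᴴ * B) *ᵥ v) = star (B *ᵥ v) ⬝ᵥ (B *ᵥ v) := by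
  rw [← mulVec_mulVec, dotProduct_mulVec, ← star_mulVec]

open scoped ComplexOrder in
private lemma unit67 (G : Gr L h E Λ) (S0 : Sp0 L h E) {d : ℕ} (u : Fin d → Matrix n n ℂ)
    (hu : ∀ x ∈ P67 L h, x = ∑ a, ((u a)ᴴ * x).trace • u a) :
    IsUnit (∑ a, u a * E 0 * (u a)ᴴ + E 0) := by
  rw [← Matrix.mulVec_injective_iff_isUnit, ← Matrix.coe_mulVecLin, injective_iff_map_eq_zero]
  intro v hv
  rw [Matrix.mulVecLin_apply] at hv
  have e1 : ∀ a, u a * E 0 * (u a)ᴴ = (E 0 * (u a)ᴴ)ᴴ * (E 0 * (u a)ᴴ) := by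
    intro a
    rw [conjTranspose_mul, conjTranspose_conjTranspose, G.spec.star]
    conv_rhs => rw [← mul_assoc, mul_assoc (u a) (E 0) (E 0), G.E0_E0]
  have e2 : E 0 = (E 0)ᴴ * E 0 := by rw [G.spec.star, G.E0_E0]
  have h1 : ∑ a, star ((E 0 * (u a)ᴴ) *ᵥ v) ⬝ᵥ ((E 0 * (u a)ᴴ) *ᵥ v) + star (E 0 *ᵥ v) ⬝ᵥ (E 0 *ᵥ v) = 0 := by
    have h2 : star v ⬝ᵥ ((∑ a, u a * E 0 * (u a)ᴴ + E 0) *ᵥ v) = 0 := by rw [hv, dotProduct_zero]
    rw [add_mulVec, dotProduct_add, sum_mulVec, dotProduct_sum] at h2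
    rw [← h2]
    congr 1
    · refine Finset.sum_congr rfl fun a _ => ?_
      rw [e1, dot67]
    · conv_rhs => rw [e2, dot67]
  have h3 : ∀ a, 0 ≤ star ((E 0 * (u a)ᴴ) *ᵥ v) ⬝ᵥ ((E 0 * (u a)ᴴ) *ᵥ v) := fun a => dotProduct_star_self_nonneg _
  rw [add_eq_zero_iff_of_nonneg (Finset.sum_nonneg fun a _ => h3 a) (dotProduct_star_self_nonneg _),
    Finset.sum_eq_zero_iff_of_nonneg fun a _ => h3 a] at h1
  have h4 : E 0 *ᵥ v = 0 := dotProduct_star_self_eq_zero.mp h1.2
  have h5 : ∀ a, (E 0 * (u a)ᴴ) *ᵥ v = 0 := fun a => dotProduct_star_self_eq_zero.mp (h1.1 a (Finset.mem_univ a))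
  refine S0 v h4 fun ν hν x hx => ?_
  have h6 := congrArg conjTranspose (hu _ (star_P67 G (mem_P67 hν hx)))
  rw [conjTranspose_conjTranspose, conjTranspose_sum] at h6
  rw [mulVec_mulVec, h6, Finset.mul_sum, sum_mulVec]
  refine Finset.sum_eq_zero fun a _ => ?_
  rw [conjTranspose_smul, mul_smul_comm, smul_mulVec, h5, smul_zero]

theorem Gr.ext (G : Gr L h E Λ) (U : Un L h E) (S0 : Sp0 L h E) {T : Matrix n n ℂ} (h1 : E 0 * T = T)
    (h2 : T * E 0 = T) (hC : ∀ ν : ℝ, ν ≠ 0 → ∀ x ∈ Ld L h ν, ∀ y ∈ Ld L h (-ν),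
      T * (E 0 * (y * x) * E 0) = E 0 * (y * x) * E 0 * T) : ∃ T', Ext L h E T T' := by
  obtain ⟨u, hu, -, hspan⟩ := exists_onb98 (P67 L h)
  -- `T` commutes with all products
  have hC' : ∀ x ∈ P67 L h, ∀ y ∈ P67 L h, T * (E 0 * (y * x) * E 0) = E 0 * (y * x) * E 0 * T := by
    intro x hx y hy
    induction hx using Submodule.span_induction with
    | mem x hx =>
      obtain ⟨ν, hν, hx⟩ := hx
      induction hy using Submodule.span_induction with
      | mem y hy =>
        obtain ⟨μ, hμ, hy⟩ := hy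
        by_cases h3 : μ + ν = 0
        · have h4 : μ = -ν := by linarith
          rw [h4] at hy
          exact hC ν hν x hx y hy
        · rw [deg_ne67 G h3 (deg_mul67 hy hx)]
          simp
      | zero => simp
      | add y z _ _ hy hz =>
        rw [add_mul, mul_add (E 0), add_mul, mul_add T, hy, hz, add_mul]
      | smul c y _ hy =>
        rw [smul_mul_assoc, mul_smul_comm, smul_mul_assoc, mul_smul_comm, hy, smul_mul_assoc]
    | zero => simp
    | add x z _ _ hx hz =>
      rw [mul_add y, mul_add (E 0), add_mul, mul_add T, hx, hz, add_mul]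
    | smul c x _ hx =>
      rw [mul_smul_comm, mul_smul_comm, smul_mul_assoc, mul_smul_comm, hx, smul_mul_assoc]
  set M := ∑ a, u a * E 0 * (u a)ᴴ + E 0 with hM
  set S := ∑ a, u a * T * (u a)ᴴ with hS
  have hMu := unit67 G S0 u hspan
  rw [← hM] at hMu
  obtain ⟨W, hW, hW'⟩ := isUnit_iff_exists.mp hMu
  have hcancel : ∀ X Y : Matrix n n ℂ, M * X = M * Y → X = Y := by
    intro X Y h3
    rw [← one_mul X, ← one_mul Y, ← hW', mul_assoc, mul_assoc, h3]
  have hstar : ∀ a, (u a)ᴴ ∈ P67 L h := fun a => star_P67 G (hu a)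
  have hES : S * E 0 = 0 := by
    rw [hS, Finset.sum_mul]
    refine Finset.sum_eq_zero fun a _ => ?_
    have e1 : u a * T * (u a)ᴴ * E 0 = u a * (T * (E 0 * (u a)ᴴ * E 0)) := by
      conv_lhs => rw [← h2]
      noncomm_ring
    rw [e1, EE_P67 G (hstar a)]
    simp
  have hSE : E 0 * S = 0 := by
    rw [hS, Finset.mul_sum]
    refine Finset.sum_eq_zero fun a _ => ?_
    have e1 : E 0 * (u a * T * (u a)ᴴ) = (E 0 * u a * E 0) * T * (u a)ᴴ := by
      conv_lhs => rw [← h1]
      noncomm_ring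
    rw [e1, EE_P67 G (hu a)]
    simp
  have hEM : E 0 * M = E 0 := by
    rw [hM, mul_add, G.E0_E0, Finset.mul_sum, Finset.sum_eq_zero, zero_add]
    intro a _
    have e1 : E 0 * (u a * E 0 * (u a)ᴴ) = (E 0 * u a * E 0) * (u a)ᴴ := by noncomm_ring
    rw [e1, EE_P67 G (hu a), zero_mul]
  have hME : M * E 0 = E 0 := by
    rw [hM, add_mul, G.E0_E0, Finset.sum_mul, Finset.sum_eq_zero, zero_add]
    intro a _
    have e1 : u a * E 0 * (u a)ᴴ * E 0 = u a * (E 0 * (u a)ᴴ * E 0) := by noncomm_ring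
    rw [e1, EE_P67 G (hstar a), mul_zero]
  have hMT : M * T = T := by
    conv_lhs => rw [← h1]
    rw [← mul_assoc, hME, h1]
  have hMT' : M * (W * (T + S)) = T + S := by rw [← mul_assoc, hW, one_mul]
  set T' := W * (T + S) with hT'
  have q2 : T' * E 0 = T := by
    apply hcancel
    rw [← mul_assoc, hMT', add_mul, hES, add_zero, h2, hMT]
  have q3 : E 0 * T' = T := by
    rw [← hEM, mul_assoc, hMT', mul_add, hSE, add_zero, h1]
  have q1 : ∀ x ∈ P67 L h, T' * x * E 0 = x * T := by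
    intro x hx
    apply hcancel
    have e1 : M * (T' * x * E 0) = (T + S) * x * E 0 := by
      rw [← mul_assoc, ← mul_assoc, hMT']
    have e2 : T * x * E 0 = 0 := by
      have : T * x * E 0 = T * (E 0 * x * E 0) := by
        conv_lhs => rw [← h2]
        noncomm_ring
      rw [this, EE_P67 G hx, mul_zero]
    have e3 : E 0 * (x * T) = 0 := by
      have : E 0 * (x * T) = E 0 * x * E 0 * T := by
        conv_lhs => rw [← h1]
        noncomm_ring
      rw [this, EE_P67 G hx, zero_mul]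
    rw [e1, add_mul, add_mul, e2, zero_add, hM, add_mul, e3, add_zero, hS, Finset.sum_mul, Finset.sum_mul,
      Finset.sum_mul]
    refine Finset.sum_congr rfl fun a _ => ?_
    have e4 : u a * T * (u a)ᴴ * x * E 0 = u a * (T * (E 0 * ((u a)ᴴ * x) * E 0)) := by
      conv_lhs => rw [← h2]
      noncomm_ring
    have e5 : u a * E 0 * (u a)ᴴ * (x * T) = u a * (E 0 * ((u a)ᴴ * x) * E 0 * T) := by
      conv_lhs => rw [← h1]
      noncomm_ring
    rw [e4, e5, hC' x hx _ (hstar a)]
  have hhT : h * T = 0 := by rw [← h1, ← mul_assoc, G.h_E0, zero_mul]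
  refine ⟨T', q2, q3, ?_, ?_⟩
  · refine eq_of67 G S0 ?_ ?_
    · have e1 : T' * h * E 0 = T' * (h * E 0) := mul_assoc _ _ _
      have e2 : h * T' * E 0 = h * (T' * E 0) := mul_assoc _ _ _
      rw [e1, e2, G.h_E0, q2, hhT, mul_zero]
    · intro ν hν x hx
      have e1 : h * x = x * h + (ν : ℂ) • x := by
        rw [← hx.2]; abel
      have e2 : T' * h * x * E 0 = (ν : ℂ) • (x * T) := by
        have : T' * h * x * E 0 = T' * (h * x) * E 0 := by noncomm_ring
        rw [this, e1, mul_add, add_mul, mul_smul_comm, smul_mul_assoc, q1 x (mem_P67 hν hx)]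
        have : T' * (x * h) * E 0 = T' * x * (h * E 0) := by noncomm_ring
        rw [this, G.h_E0, mul_zero, zero_add]
      have e3 : h * T' * x * E 0 = (ν : ℂ) • (x * T) := by
        have : h * T' * x * E 0 = h * (T' * x * E 0) := by noncomm_ring
        rw [this, q1 x (mem_P67 hν hx), ← mul_assoc, e1, add_mul, mul_assoc, hhT, mul_zero, zero_add,
          smul_mul_assoc]
      rw [e2, e3]
  · intro ν hν x hx
    refine eq_of67 G S0 ?_ ?_
    · rw [q1 x (mem_P67 hν hx), mul_assoc, q2]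
    · intro μ hμ y hy
      have hL : y * E 0 + E 0 * y ∈ L := U μ hμ y hy
      set y' := y * E 0 + E 0 * y with hy'
      have hy'd : y' ∈ Ld L h μ := by
        refine ⟨hL, ?_⟩
        have e1 : h * y' - y' * h = (h * y - y * h) * E 0 + E 0 * (h * y - y * h) +
            (y * (h * E 0) - y * (E 0 * h) + (h * E 0) * y - (E 0 * h) * y) := by
          rw [hy']; noncomm_ring
        rw [e1, hy.2, G.h_E0, G.E0_h, hy']
        simp
      have e0 : y' * E 0 = y * E 0 := by
        rw [hy', add_mul, G.EE hμ hy, add_zero, mul_assoc, G.E0_E0]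
      have e2 : x * T' * y * E 0 = x * y * T := by
        have : x * T' * y * E 0 = x * (T' * y * E 0) := by noncomm_ring
        rw [this, q1 y (mem_P67 hμ hy), mul_assoc]
      have e3 : T' * x * y * E 0 = T' * (x * y * E 0) := by noncomm_ring
      rw [e2, e3]
      by_cases h3 : ν + μ = 0
      · have h4 : E 0 * (x * y) = x * y * E 0 := by
          apply deg_zero67 G
          rw [deg_mul67 hx hy, h3]
        have h5 : x * y * E 0 = E 0 * (x * y * E 0) := by
          conv_rhs => rw [← h4, ← mul_assoc, G.E0_E0, h4]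
        have h6 : T' * (x * y * E 0) = T * (E 0 * (x * y) * E 0) := by
          conv_lhs => rw [h5, ← mul_assoc, ← mul_assoc, ← mul_assoc]
          rw [q2]
          conv_rhs => rw [← mul_assoc, ← mul_assoc, h2]
          noncomm_ring
        have h7 := hC' y (mem_P67 hμ hy) x (mem_P67 hν hx)
        rw [h6, h7, h4, mul_assoc (x * y), G.E0_E0, mul_assoc, h1]
      · have h4 : x * y * E 0 = (x * y' - y' * x) * E 0 := by
          have e4 : y' * x * E 0 = 0 := by
            rw [hy']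
            have e5 : (y * E 0 + E 0 * y) * x * E 0 = y * (E 0 * x * E 0) + E 0 * (y * x) * E 0 := by noncomm_ring
            rw [e5, G.EE hν hx, mul_zero, zero_add, deg_ne67 G (ν := μ + ν) (by rw [add_comm]; exact h3)
              (deg_mul67 hy hx)]
          rw [sub_mul, e4, sub_zero, mul_assoc, mul_assoc, e0]
        have h5 : x * y' - y' * x ∈ P67 L h := mem_P67 h3 (G.br_Ld hx hy'd)
        have h6 : x * y * T = (x * y' - y' * x) * T := by
          have : x * y * T = x * y * E 0 * T := by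
            conv_rhs => rw [mul_assoc, h1]
          rw [this, h4, mul_assoc, h1]
        rw [h4, ← mul_assoc, q1 _ h5, h6]

end GH
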